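import Pool.Agent.U469.EW.CritAsm
import Pool.Agent.U469.EW.FC
import Pool.Agent.U293.EW.GD
import Pool.Agent.U744.EW.CNTCUT
import Pool.Agent.U312.EW.SYMANT
import Pool.Agent.U128.EW.LIM
import Pool.Agent.U103.EW.BAL

/-!
# Energy equality from critical bounds in a sparse sequence of frequency windows

Let `u` be a weak solution of the Navier-Stokes equations on the torus `(ℝ/2πℤ)³` and on `[0,T]`,
with viscosity `ν` and force `f ∈ L²(0,T;L²)`; no energy inequality is assumed. Let `P_n u` be the
part of `u` with the frequencies `A_n < max |k_i| ≤ M_n`, where `A_n → ∞` and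
`M_n ≥ c A_n^(5/4)`, `c > 0`, and let `w_n(t) = ∑_k |k| |u_k(t)|`, the sum over these frequencies
(the norm of the gradient of `P_n u` in the Wiener algebra). The energy equality holds on `[0,T]` if

* `w_n ≤ K M_n²` for almost every `t` (a critical bound, as for `u ∈ L^∞(0,T;B^{-1}_{∞,1})`); or
* the norm of `w_n` in `L^p(0,T)` is at most a constant times `M_n^(2-2/p)`, where `1 < p < ∞`
  (again a critical bound); or
* the frequencies of `u` in the `n`-th window are in a set `S` with at most `K M_n²` elements there
  (all frequencies: about `8 M_n³`).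

The constant is arbitrary, the same for all `n`. There is no condition on the other frequencies, and
the windows may be arbitrarily sparse. So a weak solution which violates the energy equality is
supercritical in every window `(A, c A^(5/4)]`: the critical quantities tend to infinity as
`A → ∞`.

Idea: the flux of energy through a Lipschitz cutoff at `M_n / 2` is at most
`C w(t) min (|u|², M_n^(-2) |∇u_{≥ M_n/4}|²)`, where `w` is the norm above for the frequencies up to
`M_n`, because at least two of the three frequencies of a triad with a nonzero contribution are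
at least `M_n / 4`. The frequencies below `A_n` contribute `O(A_n^(5/2)) = O(M_n²)` to `w`, so
their part of the flux is controlled by the tail of the dissipation, which tends to zero.

Design: helper469. Parts: helper103, helper594 (balance), helper128, helper293 (limits), helper312
(antisymmetry), helper535, helper606, helper744 (triads).
-/

set_option autoImplicit false

open MeasureTheory Set Filter Topology
open scoped ENNReal

namespace Pool.Agent.Results.MP_a38b17_an.CriticalWindows

open Pool.Agent.U469.EW

theorem result (ν T : ℝ) (hT : 0 < T) (f u : ℝ → Fld) (hu : IsWeak ν T f u)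
    (c K : ℝ) (hc : 0 < c) (A M : ℕ → ℕ) (hA : Tendsto A atTop atTop)
    (hM : ∀ n, c * (A n : ℝ) ^ (5 / 4 : ℝ) ≤ M n)
    (h : (∀ n, ∀ᵐ t ∂(volume.restrict (Icc 0 T)),
        wie (win (A n) (M n)) (u t) ≤ K * (M n : ℝ) ^ 2) ∨
      (∃ p : ℝ, 1 < p ∧ ∀ n, ∫⁻ t in Icc 0 T, ENNReal.ofReal (wie (win (A n) (M n)) (u t) ^ p) ≤
        ENNReal.ofReal (K * (M n : ℝ) ^ (2 * p - 2))) ∨
      ∃ S : Set Wv, (∀ n, ((S ∩ win (A n) (M n)).ncard : ℝ) ≤ K * (M n : ℝ) ^ 2) ∧
        ∀ n, ∀ k ∈ win (A n) (M n), k ∉ S → ∀ᵐ t ∂(volume.restrict (Icc 0 T)), u t k = 0) :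
    EnergyEq ν T f u := by
  have hSYM := Pool.Agent.U312.EW.SYMANT.t_SYM
  have hANT := Pool.Agent.U312.EW.SYMANT.t_ANT hSYM
  have hCNT := Pool.Agent.U744.EW.CNTCUT.t_CNT
  have hCUT := Pool.Agent.U744.EW.CNTCUT.t_CUT
  have hFC := Pool.Agent.U469.EW.FC.t_FC2 hSYM hANT hCUT
  have hGD := Pool.Agent.U293.EW.GD.t_GD
  have hBAL := Pool.Agent.U103.EW.BAL.t_BAL
  have hLIM := Pool.Agent.U128.EW.LIM.t_LIM hBAL hGD
  exact crit2 hFC hCNT hCUT hGD hLIM ν T hT f u hu c K hc A M hA hM h

end Pool.Agent.Results.MP_a38b17_an.CriticalWindows
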