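import Mathlib
import Pool.Agent.U401.DD.Asm5
import Pool.Agent.U401.DD.SIGW
import Pool.Agent.U401.DD.CPX
import Pool.Agent.U423.EE.BW
import Pool.Agent.U401.DD.HN
import Pool.Agent.U401.DD.ETA4
import Pool.Agent.U401.DD.KN
import Pool.Agent.U401.DD.DRI
import Pool.Agent.U401.DD.FLX
import Pool.Agent.U401.DD.WFA
import Pool.Agent.U401.DD.WEQ
import Pool.Agent.U401.DD.EXP
import Pool.Agent.U401.DD.DAT
import Pool.Agent.U401.DD.DAT2
import Pool.Agent.U401.DD.LMI
import Pool.Agent.U401.DD.BES
import Pool.Agent.U401.DD.QUA
import Pool.Agent.U401.DD.Prn2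
import Pool.Agent.U401.DD.PRL2
import Pool.Agent.U401.DD.MIN
import Pool.Agent.U401.DD.BAS
import Pool.Agent.U401.DD.MMX
import Pool.Agent.U401.DD.TST
import Pool.Agent.U401.DD.PWC
import Pool.Agent.U401.DD.CNT
import Pool.Agent.U401.DD.CMP

set_option autoImplicit false

/-!
# Energy equality for all weak solutions of the Navier-Stokes equations with a small random
# skew-adjoint term

Let `Ω` be any nonempty bounded open set of `ℝ³` (no regularity of the boundary), with zero boundary
values: `V` is the closure in `H¹` of the divergence free test fields (`H1graph` is the set of the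
pairs `(v, ∇v)`, `v ∈ V`), `L2sigma` its closure in `L²`. We add to the Navier-Stokes equations
(true nonlinearity, true viscosity `ν`) a term `ε L u` with a skew-adjoint operator `L`: if
`w₀, w₁, …` is an orthonormal basis of eigenfunctions of the Stokes operator with increasing
eigenvalues `λ_n` (`Eig`), then `L` rotates the plane spanned by `w_{2j}, w_{2j+1}` with angular
frequency `ω_j` (`rot`). The term does not change the energy law.

(0) Every nonempty bounded open set has such a basis.

(1) Let the frequencies have few resonances (`Good2`): with `G_j = 1 + λ_{2j} + λ_{2j+1}`,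
`c G_j ^ 8 ≤ |ω_j|`, and only finitely many triples of modes, apart from the trivial resonances
`ω_j - ω_j ± ω_m`, have `|± ω_j ± ω_l ± ω_m| < max (G_j, G_l, G_m) ^ 6`. Then for all viscosities
`ν > 0`, all amplitudes `ε ≠ 0` (arbitrarily small), all `T ≥ 0` and all forces
`f ∈ L²(0, T; L²)`: every weak solution `u ∈ L^∞(0, T; H) ∩ L²(0, T; V)` (`WeakSol`: weakly
continuous in time, the equations are tested with all the `w_n` and integrated in time, any initial
value in `H`; the energy inequality is not assumed) satisfies the energy equality at all times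
`t ∈ [0, T]`.

(2) Let `ω_j = G_j ^ σ Z_j`, `σ > 21 / 2`, where the random variables `Z_j` are independent with
densities bounded by `D` (for instance uniform on `[1, 2]`). Almost surely the energy equality holds
for all `ν`, `ε`, `T`, `f` and all weak solutions at once.

Proof: the energy of the first `2 N` modes changes by the flux of the nonlinear term through the
frequency `N`. It is a sum over triples of modes of products `c_j c_l c_m` of rotating amplitudes.
One normal form step (with the divisors `± ω_j ± ω_l ± ω_m`, for the projections of the weak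
solution on finitely many modes; no regularity is needed) writes the flux of the triples which are
not resonant as the time derivative of a correction and a remainder. The divisors are so large that
both tend to zero, uniformly in the number of the modes, as `N → ∞`. The trivial resonances
`c_j c̄_j c_m` with `G_m ^ 3 < G_j` are bounded by the gradient, the others have large divisors
`ω_m`. So the flux tends to zero, which is the energy equality.

Parts by helpers 95, 208, 423, 439, 458, 461, 571, 618, 645, 863, and by the helpers who are listed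
in `Pool/Agent/Results/MP_fd8964_an/DirichletDispersion.lean`, whose parts are used here.
-/

namespace Pool.Agent.Results.MP_a38b17_an.DirichletDispersionEnergy

open MeasureTheory ProbabilityTheory Set H772R2.NS.Pub Pool.Agent.U401.DD Pool.Agent.U401.DD.P

/-- All weak solutions of the Navier-Stokes equations with zero boundary values in an arbitrary
bounded open set, with an arbitrarily small random skew-adjoint term, almost surely satisfy the
energy equality. -/
theorem result (Ω : Set R3) (hΩ : IsOpen Ω) (hb : Bornology.IsBounded Ω) (hne : Ω.Nonempty) :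
    (∃ (w : ℕ → L2 Ω R3) (g : ℕ → L2 Ω Mat) (lam : ℕ → ℝ), Eig Ω w g lam) ∧
    ∀ (w : ℕ → L2 Ω R3) (g : ℕ → L2 Ω Mat) (lam : ℕ → ℝ), Eig Ω w g lam →
      (∀ (om : ℕ → ℝ) (c : ℝ), Good2 lam om c → ∀ ν ε : ℝ, 0 < ν → ε ≠ 0 →
        EnergyEq Ω w g om ν ε) ∧
      ∀ σ D : ℝ, 21 / 2 < σ → 0 ≤ D → ∀ (Θ : Type) [MeasurableSpace Θ] (P : Measure Θ)
        [IsProbabilityMeasure P] (Z : ℕ → Θ → ℝ), (∀ j, Measurable (Z j)) → iIndepFun Z P →
        DensB P Z D → ∀ᵐ θ ∂P, ∀ ν ε : ℝ, 0 < ν → ε ≠ 0 →
          EnergyEq Ω w g (fun j => GG lam j ^ σ * Z j θ) ν ε :=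
  main5 t_CPX t_SIGW Pool.Agent.U423.EE.t_BW t_HN t_ETA4 t_KN t_DRI t_FLX t_WFA t_WEQ t_EXP
    t_DAT t_DAT2 t_LMI t_BES t_QUA t_PRN2 t_PRL2 t_MIN t_BAS t_MMX t_TST t_PWC t_CNT t_CMP
    Ω hΩ hb hne

end Pool.Agent.Results.MP_a38b17_an.DirichletDispersionEnergy
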