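import Pool.Agent.U379.ED.Main

/-!
# How fast the kinetic energy drops where the energy equality fails

`u` is a weak solution of the Navier-Stokes equations in an arbitrary open set `Ω ⊆ ℝ³`; no energy
inequality is assumed. `D` is its energy defect: the energy equality is `D = 0`, the energy
inequality between `s` and `t ≥ s` is `D(s) ≤ D(t)`. Suppose that `∇u ∈ L^r(0,T; L²)`, `2 ≤ r < 5/2`;
for `r = 2` this is part of the definition of a weak solution, and for `r = 5/2` the energy equality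
is classical. Let `γ = 2 (5 - 2 r) / (10 - 3 r)`; this decreases from `1/2` to `0`.

1. The times `t` at which `∫_J ‖∇u‖^r` is not `O(|J|^γ)`, `t ∈ J`, are a set of Hausdorff measure
   zero in dimension `γ`, and `D` maps the other times to a null set.
2. If at all times `t`, with exceptions, `D(t) - D(s) ≤ C (t - s)^γ` for `s < t` close to `t`, with
   `C` depending on `t` in an arbitrary way, then `D` is nonincreasing.
3. If at all times `t`, with exceptions, `D(t) - D(s) ≤ C (s - t)^γ` for `s > t` close to `t`, then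
   `D` is nondecreasing: if the energy inequality from each time `t` holds up to an error
   `O((s - t)^γ)`, then it holds exactly, between any two times.
4. If the energy inequality holds between `0` and `T`, as for all Leray-Hopf solutions,
   `f ∈ L²(0,T; L²)`, and if at all times `t`, with exceptions, `‖u(s)‖² - ‖u(t)‖² ≤ C (t - s)^γ` for
   `s < t` close to `t`, then the energy equality holds on `[0,T]`.

So, for all Leray-Hopf solutions, the energy equality holds if the kinetic energy never drops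
faster than `√(t - s)`.

The exceptions: the quiet times of 1, the times of type I, and the times of finite enstrophy and
those in a countable set at which `‖u‖` does not jump; in 2 and 3 also the times of a set of
Hausdorff measure zero in dimension `β` at which the condition holds with `β` instead of `γ`.
-/

set_option autoImplicit false

open MeasureTheory Set
open scoped ENNReal

namespace Pool.Agent.Results.MP_a38b17_an.EnergyDropRate

open H772R2.NS.Pub Pool.Agent.TH301.EQ Pool.Agent.U379.ED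

theorem result {Ω : Set R3} (hΩ : IsOpen Ω) {ν T : ℝ} (hν : 0 < ν) (hT : 0 < T)
    {u : ℝ → L2 Ω R3} {G : ℝ → L2 Ω Mat} {f : ℝ → L2 Ω R3} (hu : IsWeakSolution Ω ν T u G f)
    {r : ℝ} (hr : 2 ≤ r) (hr' : r < 5 / 2) (hG : IntegrableOn (fun t => ‖G t‖ ^ r) (Ioo 0 T))
    {N : Set ℝ} (hN : N.Countable)
    {β : ℕ → ℝ} {S : ℕ → Set ℝ} (hβ : ∀ i, 0 < β i) (hS : ∀ i, μH[β i] (S i) = 0) :
    (μH[gam r] {t | t ∈ Icc 0 T ∧ ¬ Quiet T r G t} = 0 ∧
      volume (energyDefect ν u G f '' {t | t ∈ Icc 0 T ∧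
        (u t ∈ H10sigma Ω ∨ Quiet T 2 G t ∨ Quiet T r G t)}) = 0) ∧
    (∀ a b, 0 ≤ a → a ≤ b → b ≤ T →
      (∀ t ∈ Ioc a b, Quiet T 2 G t ∨ Quiet T r G t ∨
        LeftRate (gam r) (energyDefect ν u G f) t ∨
        (∃ i, t ∈ S i ∧ LeftRate (β i) (energyDefect ν u G f) t) ∨
        (NoJumpLeft u t ∧ (t ∈ N ∨ u t ∈ H10sigma Ω))) →
      energyDefect ν u G f b ≤ energyDefect ν u G f a) ∧
    (∀ a b, 0 ≤ a → a ≤ b → b ≤ T →
      (∀ t ∈ Ico a b, Quiet T 2 G t ∨ Quiet T r G t ∨
        RightRate (gam r) T (energyDefect ν u G f) t ∨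
        (∃ i, t ∈ S i ∧ RightRate (β i) T (energyDefect ν u G f) t) ∨
        (NoJumpRight T u t ∧ (t ∈ N ∨ u t ∈ H10sigma Ω))) →
      energyDefect ν u G f a ≤ energyDefect ν u G f b) ∧
    (0 ≤ energyDefect ν u G f T → MemLp f 2 (volume.restrict (Ioo 0 T)) →
      (∀ t ∈ Ioc 0 T, Quiet T 2 G t ∨ Quiet T r G t ∨
        (∃ C δ : ℝ, 0 < δ ∧ ∀ s ∈ Ico 0 t, t - s < δ →
          ‖u s‖ ^ 2 - ‖u t‖ ^ 2 ≤ C * (t - s) ^ gam r) ∨
        (NoJumpLeft u t ∧ (t ∈ N ∨ u t ∈ H10sigma Ω))) →
      ∀ t ∈ Icc 0 T, energyDefect ν u G f t = 0) := by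
  refine ⟨⟨bad_null hr' hG, image_null' hΩ hν.le hT hu hr hr' hG⟩,
    fun a b ha hab hb h => forward hΩ hν.le hT hu hr hr' hG hN hβ hS ha hab hb h,
    fun a b ha hab hb h => backward hΩ hν.le hT hu hr hr' hG hN hβ hS ha hab hb h,
    fun hD hf h => eq_of_anti (fun s t hs hst ht => ?_) hD⟩
  refine forward hΩ hν.le hT hu hr hr' hG hN hβ hS hs hst ht fun τ hτ => ?_
  rcases h τ ⟨hs.trans_lt hτ.1, hτ.2.trans ht⟩ with h1 | h1 | h1 | h1
  · exact Or.inl h1
  · exact Or.inr (Or.inl h1)
  · exact Or.inr (Or.inr (Or.inl (rate_left hΩ hν.le hT hu hf (gam_le hr hr')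
      ⟨hs.trans_lt hτ.1, hτ.2.trans ht⟩ h1)))
  · exact Or.inr (Or.inr (Or.inr (Or.inr h1)))

end Pool.Agent.Results.MP_a38b17_an.EnergyDropRate
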