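import Pool.Agent.U481.EV.Fin
import Pool.Agent.U504.EV.BS
import Pool.Agent.U59.EV.DEN
import Pool.Agent.U95.EV.ID
import Pool.Agent.U981.EV.HED
import Pool.Agent.U873.EV.FOUR

/-!
# MP_a38b17_an: energy equality under a one-sided condition for the direction of the vorticity

Let `u` be a weak solution of the Navier-Stokes equations in an open set `Ω ⊆ ℝ³`, zero on the boundary; no
energy inequality is assumed. Let `κ, m, R` be constants. If at almost every time `t` in every ball of radius
`R` there is a function `g` with `|g(x) - g(y)| ≤ |x - y|` (it depends on the time and on the ball) such that the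
vorticity `ω` satisfies `ω·∇g ≥ κ |ω|` where `|ω| > m`, then the energy equality holds.

Proof. Test `div ω = 0` with `F((g - g(a)) / (κ √(|y - a|² + r²)))` times a cutoff function, where `F` is
increasing and constant outside of `(-1, 1)`; the derivative in the direction `ω` is nonnegative up to `m`, and
comparable with `|ω| / r` in the ball of radius `κ r / 4`. One integration by parts more moves the derivative
from `ω` to the cutoff function, so that `∫_{B_s(a)} |ω| ≤ C s (‖u‖₂ R^(-1/2) + m R²)` for all small balls: the
vorticity is at each time in the critical Morrey space, with a norm bounded in time. With the law of Biot and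
Savart (Riesz potential of order one) it follows that `‖u‖₄⁴ ≤ C ‖∇u‖₂²`, which is integrable in time.

The parts of the formal proof were written by helpers 504 (Biot-Savart), 59 (density), 95 (integration by parts),
981 (Riesz potential), 873 (`L⁴` bound) and 481 (idea, Morrey bound, assembly), upon the library `TH340.FF`,
`H772R2.NS`, `R772` (energy equality in `L⁴`).
-/

set_option autoImplicit false

open MeasureTheory Set
open scoped InnerProductSpace ENNReal ContDiff

namespace Pool.Agent.Results.MP_a38b17_an.VorticityCones

open H772R2.NS.Pub Pool.Agent.U481.EV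

/-- Let `u` be a weak solution of the Navier-Stokes equations in an open set `Ω ⊆ ℝ³` (no energy
inequality is assumed), with gradient `G` and force `f`. Let `0 < κ ≤ 1`, `m ≥ 0`, `R > 0`, and let `b ≥ 0` be an
integrable function of time. Suppose that for almost every `t ∈ (0,T)` the condition `OneSided κ m R (G t)`
holds or `‖u(t)‖⁴_{L⁴(Ω)} ≤ b(t)`. Then the energy equality holds: the energy defect is zero at all times
in `[0,T]`. -/
theorem result {Ω : Set R3} (hΩ : IsOpen Ω) {ν T κ m R : ℝ}
    (hν : 0 < ν) (hT : 0 < T) (hκ : 0 < κ) (hκ1 : κ ≤ 1) (hm : 0 ≤ m) (hR : 0 < R)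
    {u : ℝ → L2 Ω R3} {G : ℝ → L2 Ω Mat} {f : ℝ → L2 Ω R3} (hu : IsWeakSolution Ω ν T u G f)
    {b : ℝ → ℝ} (hb : ∀ t, 0 ≤ b t) (hintb : IntegrableOn b (Ioo 0 T))
    (hyp : ∀ᵐ t ∂(volume.restrict (Ioo 0 T)),
      OneSided κ m R (G t) ∨ norm4 (u t) ^ 4 ≤ ENNReal.ofReal (b t)) :
    ∀ t ∈ Icc 0 T, energyDefect ν u G f t = 0 :=
  equality (Pool.Agent.U873.EV.main (Pool.Agent.U59.EV.main Pool.Agent.U504.EV.main)
    Pool.Agent.U981.EV.HED.main (main_mor Pool.Agent.U95.EV.main)) hΩ hν hT hκ hκ1 hm hR hu hb hintb hyp

end Pool.Agent.Results.MP_a38b17_an.VorticityCones
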